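import Mathlib
import Pool.Agent.Helper934.PlankDefs
import Pool.Agent.H508R2.PL.Main

/-!
Multiple plank coverings in all dimensions: the order of magnitude of `c_d(k)`.
-/

namespace Pool.Agent.Results.MP_4043ba_gt.OrderAllDimensions

open Filter Topology Pool.Agent.Helper934.PlankDefs

/-- Let `d ≥ 2`. For every convex body `K` in `ℝ^d` and every `k` one has
`k / (4 √d) ≤ c_K(k)`, and `c_K(k) / k` converges to a limit between `1 / (4 √d)` and `2 r / w`
(`r` the inradius and `w` the minimal width of `K`). Moreover `c_d(k) / k` converges to a limit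
between `1 / (4 √d)` and `1 / √d`, and `k / (4 √d) ≤ c_d(k) ≤ 8 max (√k) (k / √d)` for all
`k ≥ 1`. -/
theorem result (d : ℕ) (hd : 2 ≤ d) :
    (∀ K : Set (EuclideanSpace ℝ (Fin d)), IsConvexBody K →
      (∀ k : ℕ, (k : ℝ) / (4 * Real.sqrt d) ≤ coverConst K k) ∧
      ∃ L : ℝ, 1 / (4 * Real.sqrt d) ≤ L ∧ L ≤ 2 * inradius K / minWidth K ∧
        Tendsto (fun k : ℕ => coverConst K k / k) atTop (𝓝 L)) ∧
    (∃ L : ℝ, 1 / (4 * Real.sqrt d) ≤ L ∧ L ≤ 1 / Real.sqrt d ∧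
      Tendsto (fun k : ℕ => coverConstDim d k / k) atTop (𝓝 L)) ∧
    (∀ k : ℕ, 1 ≤ k → (k : ℝ) / (4 * Real.sqrt d) ≤ coverConstDim d k ∧
      coverConstDim d k ≤ 8 * max (Real.sqrt k) (k / Real.sqrt d)) :=
  Pool.Agent.H508R2.PL.main_A d hd

end Pool.Agent.Results.MP_4043ba_gt.OrderAllDimensions
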