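import Mathlib
import Pool.Agent.Helper934.PlankDefs
import Pool.Agent.H508R2.PL.Main

/-!
Multiple plank coverings: the exact asymptotic constant for balls and for the class of all
centrally symmetric convex bodies.
-/

namespace Pool.Agent.Results.MP_4043ba_gt.SymmetricLimit

open Filter Topology Metric Pool.Agent.Helper934.PlankDefs

/-- `K` is centrally symmetric about some point `p`. -/
def IsCentrallySymmetric {d : ℕ} (K : Set (EuclideanSpace ℝ (Fin d))) : Prop :=
  ∃ p : EuclideanSpace ℝ (Fin d), ∀ x ∈ K, (2 : ℝ) • p - x ∈ K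

/-- The infimum of `c_K(k)` over all centrally symmetric convex bodies `K` in dimension `d`. -/
noncomputable def coverConstSym (d k : ℕ) : ℝ :=
  sInf {c : ℝ | ∃ K : Set (EuclideanSpace ℝ (Fin d)), IsConvexBody K ∧ IsCentrallySymmetric K ∧
    c = coverConst K k}

/-- Let `d ≥ 3` and `v = √π Γ((d - 1) / 2) / (2 Γ(d / 2))`. Then `v k ≤ c_K(k)` for every centrally
symmetric convex body `K` in `ℝ^d` and every `k`; for every ball `c_K(k) / k → v`; and the infimum
of `c_K(k)` over all centrally symmetric convex bodies, divided by `k`, tends to `v`. -/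
theorem result (d : ℕ) (hd : 3 ≤ d) :
    (∀ K : Set (EuclideanSpace ℝ (Fin d)), IsConvexBody K → IsCentrallySymmetric K → ∀ k : ℕ,
      Real.sqrt Real.pi * Real.Gamma (((d : ℝ) - 1) / 2) / (2 * Real.Gamma ((d : ℝ) / 2)) * k ≤
        coverConst K k) ∧
    (∀ (c : EuclideanSpace ℝ (Fin d)) (ρ : ℝ), 0 < ρ →
      Tendsto (fun k : ℕ => coverConst (closedBall c ρ) k / k) atTop
        (𝓝 (Real.sqrt Real.pi * Real.Gamma (((d : ℝ) - 1) / 2) /
          (2 * Real.Gamma ((d : ℝ) / 2))))) ∧
    Tendsto (fun k : ℕ => coverConstSym d k / k) atTop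
      (𝓝 (Real.sqrt Real.pi * Real.Gamma (((d : ℝ) - 1) / 2) /
        (2 * Real.Gamma ((d : ℝ) / 2)))) :=
  Pool.Agent.H508R2.PL.main_B d hd

end Pool.Agent.Results.MP_4043ba_gt.SymmetricLimit
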