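import Mathlib
import Pool.Agent.Helper934.PlankDefs
import Pool.Agent.H508R2.PL.Main

/-!
Multiple plank coverings: the order of magnitude of the covering constants of centrally symmetric
convex bodies, uniformly in the dimension and the multiplicity.
-/

namespace Pool.Agent.Results.MP_4043ba_gt.SymmetricOrder

open Filter Topology Metric Pool.Agent.Helper934.PlankDefs

/-- `K` is centrally symmetric about some point `p`. -/
def IsCentrallySymmetric {d : ℕ} (K : Set (EuclideanSpace ℝ (Fin d))) : Prop :=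
  ∃ p : EuclideanSpace ℝ (Fin d), ∀ x ∈ K, (2 : ℝ) • p - x ∈ K

/-- The infimum of `c_K(k)` over all centrally symmetric convex bodies `K` in dimension `d`. -/
noncomputable def coverConstSym (d k : ℕ) : ℝ :=
  sInf {c : ℝ | ∃ K : Set (EuclideanSpace ℝ (Fin d)), IsConvexBody K ∧ IsCentrallySymmetric K ∧
    c = coverConst K k}

/-- Let `d ≥ 2`. For every centrally symmetric convex body `K` in `ℝ^d` and every `k` one has
`(√2 - 1) max (√k) (k / √d) ≤ c_K(k)`; for every ball `c_K(k) ≤ 6 max (√k) (k / √d)` for all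
`k ≥ 1`. So the infimum of `c_K(k)` over all centrally symmetric convex bodies lies between
`(√2 - 1) max (√k) (k / √d)` and `6 max (√k) (k / √d)`. -/
theorem result (d : ℕ) (hd : 2 ≤ d) :
    (∀ K : Set (EuclideanSpace ℝ (Fin d)), IsConvexBody K → IsCentrallySymmetric K → ∀ k : ℕ,
      (Real.sqrt 2 - 1) * max (Real.sqrt k) (k / Real.sqrt d) ≤ coverConst K k) ∧
    (∀ (c : EuclideanSpace ℝ (Fin d)) (ρ : ℝ), 0 < ρ → ∀ k : ℕ, 1 ≤ k →
      coverConst (closedBall c ρ) k ≤ 6 * max (Real.sqrt k) (k / Real.sqrt d)) ∧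
    (∀ k : ℕ, 1 ≤ k →
      (Real.sqrt 2 - 1) * max (Real.sqrt k) (k / Real.sqrt d) ≤ coverConstSym d k ∧
      coverConstSym d k ≤ 6 * max (Real.sqrt k) (k / Real.sqrt d)) :=
  Pool.Agent.H508R2.PL.main_C d hd

end Pool.Agent.Results.MP_4043ba_gt.SymmetricOrder
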